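import Mathlib

/-!
# Cycle sums of a maximal equiangular tight frame

All sums are evaluated from the two design identities of the Gram matrix.
-/

set_option autoImplicit false

open Finset

namespace Pool.Agent.Y387.MD

variable {ι : Type*} [Fintype ι] [DecidableEq ι]

/-- the identities of the Gram matrix of a maximal equiangular tight frame -/
structure GramData (G : ι → ι → ℂ) (d c lam : ℂ) : Prop where
  diag : ∀ i, G i i = 1
  prod : ∀ i j, i ≠ j → G i j * G j i = c
  D1 : ∀ i k, ∑ j, G i j * G j k = d * G i k
  D2 : ∀ i k a b, ∑ j, (G i j * G k j) * (G j a * G j b) = lam * (G i a * G k b + G i b * G k a)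
  hcd : c * d = lam
  hlam : lam = 1 - c
  card : (Fintype.card ι : ℂ) = d ^ 2

/-- `λ` times the projection onto the `i`-th tangent space -/
def ff (G : ι → ι → ℂ) (i j k : ι) : ℂ :=
  G i j * G j k * G k i - (G i j * G j i) * (G i k * G k i)

variable {G : ι → ι → ℂ} {d c lam : ℂ}

omit [DecidableEq ι] in
theorem ff_left (h : GramData G d c lam) (i k : ι) : ff G i i k = 0 := by
  unfold ff
  rw [h.diag]
  ring

omit [DecidableEq ι] in
theorem ff_right (h : GramData G d c lam) (i j : ι) : ff G i j i = 0 := by
  unfold ff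
  rw [h.diag]
  ring

/-- summation against the squared moduli -/
theorem psum (h : GramData G d c lam) (i : ι) (g : ι → ℂ) :
    ∑ k, (G i k * G k i) * g k = c * ∑ k, g k + lam * g i := by
  have h1 : ∀ k, (G i k * G k i) * g k = c * g k + (if i = k then lam * g k else 0) := by
    intro k
    split_ifs with hk
    · rw [← hk, h.diag, h.hlam]; ring
    · rw [h.prod i k hk, add_zero]
  simp_rw [h1]
  rw [Finset.sum_add_distrib, ← Finset.mul_sum, Finset.sum_ite_eq, if_pos (Finset.mem_univ _)]

theorem psum' (h : GramData G d c lam) (i : ι) (g : ι → ℂ) :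
    ∑ k, (G k i * G i k) * g k = c * ∑ k, g k + lam * g i := by
  rw [← psum h]
  refine Finset.sum_congr rfl fun k _ => ?_
  ring

omit [DecidableEq ι] in
theorem cc_card (h : GramData G d c lam) : c ^ 2 * (Fintype.card ι : ℂ) = lam ^ 2 := by
  rw [h.card, ← h.hcd]; ring

/-- the projection property -/
theorem ff_proj (h : GramData G d c lam) (i j l : ι) :
    ∑ k, ff G i j k * ff G i k l = lam * ff G i j l := by
  have e1 : ∑ k, (G i k * G k i) * (G j k * G k l) = lam * G j l + lam * (G j i * G i l) := by
    rw [psum h, h.D1, ← mul_assoc, h.hcd]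
  have e2 : ∑ k, (G i k * G k i) * (G j k * G k i) = 2 * lam * G j i := by
    rw [psum h, h.D1, ← mul_assoc, h.hcd, h.diag]; ring
  have e3 : ∑ k, (G i k * G k i) * (G i k * G k l) = 2 * lam * G i l := by
    rw [psum h, h.D1, ← mul_assoc, h.hcd, h.diag]; ring
  have e4 : ∑ k, (G i k * G k i) * (G i k * G k i) = 2 * lam := by
    rw [psum h, h.D1, ← mul_assoc, h.hcd, h.diag]; ring
  have h1 : ∀ k, ff G i j k * ff G i k l =
      (G i j * G l i) * ((G i k * G k i) * (G j k * G k l)) -
      (G i j * (G i l * G l i)) * ((G i k * G k i) * (G j k * G k i)) -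
      ((G i j * G j i) * G l i) * ((G i k * G k i) * (G i k * G k l)) +
      ((G i j * G j i) * (G i l * G l i)) * ((G i k * G k i) * (G i k * G k i)) := by
    intro k
    unfold ff
    ring
  simp_rw [h1]
  rw [Finset.sum_add_distrib, Finset.sum_sub_distrib, Finset.sum_sub_distrib, ← Finset.mul_sum,
    ← Finset.mul_sum, ← Finset.mul_sum, ← Finset.mul_sum, e1, e2, e3, e4]
  unfold ff
  ring

/-- the trace -/
theorem ff_trace (h : GramData G d c lam) (i : ι) : ∑ j, ff G i j j = lam * (d - 1) := by
  have e4 : ∑ k, (G i k * G k i) * (G i k * G k i) = 2 * lam := by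
    rw [psum h, h.D1, ← mul_assoc, h.hcd, h.diag]; ring
  have e5 : ∑ k, G i k * G k i = d := by
    rw [h.D1, h.diag, mul_one]
  have h1 : ∀ j, ff G i j j = G i j * G j i - (G i j * G j i) * (G i j * G j i) := by
    intro j
    unfold ff
    rw [h.diag]; ring
  simp_rw [h1]
  rw [Finset.sum_sub_distrib, e4, e5]
  linear_combination (-d) * h.hlam + h.hcd

/-! ### Sums for two different indices -/

section Two

variable {a b : ι}

theorem ff_p (h : GramData G d c lam) (i a b : ι) :
    (G a i * G i a) * ff G i b a = c * ff G i b a := by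
  by_cases hi : a = i
  · rw [hi, ff_right h]; ring
  · rw [h.prod a i hi]

theorem ff_p' (h : GramData G d c lam) (i a b : ι) :
    (G a i * G i a) * ff G i a b = c * ff G i a b := by
  by_cases hi : a = i
  · rw [hi, ff_left h]; ring
  · rw [h.prod a i hi]

/-- the sum of the entries -/
theorem sum_ff (h : GramData G d c lam) (hab : a ≠ b) : ∑ i, ff G i b a = -(c * lam) := by
  have e1 : ∑ i, (G a i * G i a) * (G b i * G i b) = lam + c * lam := by
    rw [psum h, h.D1, h.diag, h.prod b a hab.symm]
    linear_combination h.hcd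
  have h1 : ∀ i, ff G i b a = G b a * (G a i * G i b) -
      (G a i * G i a) * (G b i * G i b) := by
    intro i
    unfold ff
    ring
  simp_rw [h1]
  rw [Finset.sum_sub_distrib, ← Finset.mul_sum, h.D1, e1]
  linear_combination d * (h.prod b a hab.symm) + h.hcd

/-- auxiliary quadratic sum -/
theorem sum_pp (h : GramData G d c lam) (u v : ι) :
    ∑ i, (G a i * G i a) * ((G b i * G i b) * (G u i * G i v)) =
      lam * c * G u v + c * lam * (G u b * G b v) +
        lam * ((G b a * G a b) * (G u a * G a v)) := by
  rw [psum h, psum h, h.D1]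
  linear_combination c * G u v * h.hcd

theorem sum_A (h : GramData G d c lam) (hab : a ≠ b) :
    ∑ i, ff G i b a * (G a i * G i b) = -(c * lam) * G a b := by
  have hp := h.prod b a hab.symm
  have hp' := h.prod a b hab
  have e1 := h.D2 a a b b
  have e2 := sum_pp (a := a) (b := b) h a b
  have h1 : ∀ i, ff G i b a * (G a i * G i b) = G b a * ((G a i * G a i) * (G i b * G i b)) -
      (G a i * G i a) * ((G b i * G i b) * (G a i * G i b)) := by
    intro i
    unfold ff
    ring
  simp_rw [h1]
  rw [Finset.sum_sub_distrib, ← Finset.mul_sum, e1, e2, h.diag, h.diag]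
  linear_combination (2 * lam * G a b - lam * G a b) * hp

/-- the sum of the squared moduli -/
theorem sum_sq (h : GramData G d c lam) (hab : a ≠ b) :
    ∑ i, ff G i b a * ff G i a b = c * lam ^ 3 := by
  have hp := h.prod b a hab.symm
  have hp' := h.prod a b hab
  have key : ∀ i, ff G i b a * ff G i a b = c ^ 2 * (G a b * G b a
      - G b a * (G a i * G i b) - G a b * (G b i * G i a) +
        (G a i * G i a) * (G b i * G i b)) := by
    intro i
    have e1 : ff G i b a * ff G i a b = ((G a i * G i a) * (G b i * G i b)) * (G a b * G b a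
      - G b a * (G a i * G i b) - G a b * (G b i * G i a) +
        (G a i * G i a) * (G b i * G i b)) := by
      unfold ff
      ring
    rw [e1]
    by_cases hi : a = i
    · subst hi
      rw [h.diag]
      ring
    · by_cases hi' : b = i
      · subst hi'
        rw [h.diag]
        ring
      · rw [h.prod a i hi, h.prod b i hi']
        ring
  have e1 : ∑ i, (G a i * G i a) * (G b i * G i b) = lam + c * lam := by
    rw [psum h, h.D1, h.diag, h.prod b a hab.symm]
    linear_combination h.hcd
  simp_rw [key]
  have f1 : ∑ i, G b a * (G a i * G i b) = G b a * (d * G a b) := by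
    rw [← Finset.mul_sum, h.D1]
  have f2 : ∑ i, G a b * (G b i * G i a) = G a b * (d * G b a) := by
    rw [← Finset.mul_sum, h.D1]
  rw [← Finset.mul_sum, Finset.sum_add_distrib, Finset.sum_sub_distrib, Finset.sum_sub_distrib,
    f1, f2, e1, Finset.sum_const, Finset.card_univ, nsmul_eq_mul, h.card]
  have e2 := h.hcd
  have e3 := h.hlam
  have e4 : d ^ 2 * (G a b * G b a) - G b a * (d * G a b) - G a b * (d * G b a) +
      (lam + c * lam) = d * lam - lam + c * lam := by
    linear_combination (d ^ 2 - d) * hp' - d * hp + (d - 2) * e2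
  rw [e4]
  linear_combination c * lam * e2 + c * lam * (c - lam) * e3

theorem sum_B (h : GramData G d c lam) (hab : a ≠ b) (i : ι) :
    ∑ j, ff G j a b * (G j a * G i j) = -(c * lam) * (G i b * G b a) := by
  have hp := h.prod b a hab.symm
  have hp' := h.prod a b hab
  have e1 := h.D2 i b a a
  have e2 := sum_pp (a := a) (b := b) h i a
  have h1 : ∀ j, ff G j a b * (G j a * G i j) = G a b * ((G i j * G b j) * (G j a * G j a)) -
      (G a j * G j a) * ((G b j * G j b) * (G i j * G j a)) := by
    intro j
    unfold ff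
    ring
  simp_rw [h1]
  rw [Finset.sum_sub_distrib, ← Finset.mul_sum, e1, e2, h.diag]
  linear_combination (2 * lam * G i a) * hp' - lam * G i a * hp

theorem sum_B' (h : GramData G d c lam) (hab : a ≠ b) (i : ι) :
    ∑ j, ff G j a b * (G b j * G j i) = -(c * lam) * (G b a * G a i) := by
  have hp := h.prod b a hab.symm
  have hp' := h.prod a b hab
  have e1 := h.D2 b b a i
  have e2 := sum_pp (a := a) (b := b) h b i
  have h1 : ∀ j, ff G j a b * (G b j * G j i) = G a b * ((G b j * G b j) * (G j a * G j i)) -
      (G a j * G j a) * ((G b j * G j b) * (G b j * G j i)) := by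
    intro j
    unfold ff
    ring
  simp_rw [h1]
  rw [Finset.sum_sub_distrib, ← Finset.mul_sum, e1, e2, h.diag]
  linear_combination (2 * lam * G b i) * hp' - lam * (G b a * G a i) * hp

/-- the four-cycle sum through two different indices -/
theorem cycle_ne (h : GramData G d c lam) (hab : a ≠ b) :
    ∑ i, ∑ j, ff G i b a * ff G j a b * (ff G a i j * ff G b j i) =
      c ^ 3 * lam ^ 4 * (1 + c) := by
  have hba := hab.symm
  have key : ∀ i j, ff G i b a * ff G j a b * (ff G a i j * ff G b j i) =
      (ff G i b a * (G a i * G i b)) * ((G i j * G j i) * (ff G j a b * (G j a * G b j))) -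
      (c ^ 2 * (ff G i b a * G a i)) * (ff G j a b * (G j a * G i j)) -
      (c ^ 2 * (ff G i b a * G i b)) * (ff G j a b * (G b j * G j i)) +
      (c ^ 4 * ff G i b a) * ff G j a b := by
    intro i j
    have p1 := ff_p h i a b
    have p2 := ff_p' h i b a
    have p3 := ff_p h j b a
    have p4 := ff_p' h j a b
    have q1 : (G b i * G i b) * ((G a i * G i a) * ff G i b a) = c ^ 2 * ff G i b a := by
      rw [p1]; linear_combination c * p2
    have q2 : (G b j * G j b) * ((G a j * G j a) * ff G j a b) = c ^ 2 * ff G j a b := by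
      rw [p4]; linear_combination c * p3
    have e1 : ff G a i j * ff G b j i =
        (G i j * G j i) * ((G a i * G i b) * (G j a * G b j))
        - (G a i * G i j * G j a) * ((G b j * G j b) * (G b i * G i b))
        - (G b j * G j i * G i b) * ((G a i * G i a) * (G a j * G j a))
        + ((G a i * G i a) * (G b i * G i b)) * ((G a j * G j a) * (G b j * G j b)) := by
      unfold ff
      ring
    rw [e1]
    linear_combination (-(G a i * G i j * G j a) * ff G j a b * (G b j * G j b)) * p2
      - (G a i * G i j * G j a) * c * ff G i b a * p3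
      - (G b j * G j i * G i b) * ff G j a b * (G a j * G j a) * p1
      - (G b j * G j i * G i b) * c * ff G i b a * p4
      + ((G a j * G j a) * (G b j * G j b)) * ff G j a b * q1
      + c ^ 2 * ff G i b a * q2
  have s1 : ∀ i, ∑ j, (ff G i b a * (G a i * G i b)) *
      ((G i j * G j i) * (ff G j a b * (G j a * G b j))) =
      (ff G i b a * (G a i * G i b)) * (c * (-(c * lam) * G b a)) +
        lam * c ^ 2 * (ff G i b a * ff G i a b) := by
    intro i
    have e1 : ∑ j, ff G j a b * (G j a * G b j) = -(c * lam) * G b a := by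
      rw [← sum_A h hba]
      refine Finset.sum_congr rfl fun j _ => ?_
      ring
    rw [← Finset.mul_sum, psum h, e1]
    have p1 := ff_p h i a b
    have p2 := ff_p' h i b a
    linear_combination lam * ff G i a b * (G b i * G i b) * p1 + lam * c * ff G i a b * p2
  have s2 : ∀ i, ∑ j, (c ^ 2 * (ff G i b a * G a i)) * (ff G j a b * (G j a * G i j)) =
      (c ^ 2 * (-(c * lam) * G b a)) * (ff G i b a * (G a i * G i b)) := by
    intro i
    rw [← Finset.mul_sum, sum_B h hab]
    ring
  have s3 : ∀ i, ∑ j, (c ^ 2 * (ff G i b a * G i b)) * (ff G j a b * (G b j * G j i)) =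
      (c ^ 2 * (-(c * lam) * G b a)) * (ff G i b a * (G a i * G i b)) := by
    intro i
    rw [← Finset.mul_sum, sum_B' h hab]
    ring
  have s4 : ∀ i, ∑ j, (c ^ 4 * ff G i b a) * ff G j a b = (c ^ 4 * (-(c * lam))) * ff G i b a := by
    intro i
    rw [← Finset.mul_sum, sum_ff h hba]
    ring
  have hp := h.prod b a hba
  have tot : ∀ i, ∑ j, ff G i b a * ff G j a b * (ff G a i j * ff G b j i) =
      (-(c ^ 2 * lam) * G b a + 2 * c ^ 3 * lam * G b a) * (ff G i b a * (G a i * G i b)) +
        lam * c ^ 2 * (ff G i b a * ff G i a b) + (c ^ 4 * (-(c * lam))) * ff G i b a := by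
    intro i
    simp_rw [key]
    rw [Finset.sum_add_distrib, Finset.sum_sub_distrib, Finset.sum_sub_distrib, s1, s2, s3, s4]
    ring
  simp_rw [tot]
  rw [Finset.sum_add_distrib, Finset.sum_add_distrib, ← Finset.mul_sum, ← Finset.mul_sum,
    ← Finset.mul_sum, sum_A h hab, sum_sq h hab, sum_ff h hab]
  have e3 := h.hlam
  have e5 : (c ^ 3 * lam ^ 2 - 2 * c ^ 4 * lam ^ 2) * (G b a * G a b) +
      c ^ 3 * lam ^ 4 + c ^ 6 * lam ^ 2 = c ^ 3 * lam ^ 4 * (1 + c) := by
    rw [hp, e3]
    ring
  linear_combination e5

end Two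

/-- the four-cycle sum through one index -/
theorem cycle_eq (h : GramData G d c lam) (a : ι) :
    ∑ i, ∑ j, ff G i a a * ff G j a a * (ff G a i j * ff G a j i) =
      c ^ 2 * lam ^ 4 * (d - 1) := by
  have h1 : ∀ i j, ff G i a a * ff G a i j = c * lam * ff G a i j := by
    intro i j
    by_cases hi : i = a
    · rw [hi, ff_left h a j]; ring
    · have h2 : ff G i a a = c * lam := by
        unfold ff
        rw [h.diag, mul_one, h.prod i a hi, h.hlam]
        ring
      rw [h2]
  have h2 : ∀ i j, ff G i a a * ff G j a a * (ff G a i j * ff G a j i) =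
      (c * lam) ^ 2 * (ff G a i j * ff G a j i) := by
    intro i j
    linear_combination ff G j a a * ff G a j i * h1 i j + c * lam * ff G a i j * h1 j i
  simp_rw [h2]
  simp_rw [← Finset.mul_sum, ff_proj h]
  rw [← Finset.mul_sum, ff_trace h]
  ring

/-- **The four-cycle sum.** -/
theorem four_cycle (h : GramData G d c lam) :
    ∑ a, ∑ b, ∑ i, ∑ j, ff G i b a * ff G j a b * (ff G a i j * ff G b j i) =
      d ^ 2 * (c ^ 2 * lam ^ 4 * (d - 1) * (2 + c)) := by
  have h1 : ∀ a b, ∑ i, ∑ j, ff G i b a * ff G j a b * (ff G a i j * ff G b j i) =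
      c ^ 3 * lam ^ 4 * (1 + c) +
        (if a = b then c ^ 2 * lam ^ 4 * (d - 1) - c ^ 3 * lam ^ 4 * (1 + c) else 0) := by
    intro a b
    split_ifs with hab
    · subst hab
      rw [cycle_eq h]; ring
    · rw [cycle_ne h hab, add_zero]
  simp_rw [h1]
  simp only [Finset.sum_add_distrib, Finset.sum_const, Finset.card_univ, nsmul_eq_mul,
    Finset.sum_ite_eq, Finset.mem_univ, if_true, h.card]
  have e1 := h.hcd
  have e2 := h.hlam
  linear_combination d ^ 2 * (d - 1) * c ^ 2 * lam ^ 4 * (1 + c) * (e1 + e2)

/-- the two-cycle sum -/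
theorem two_cycle (h : GramData G d c lam) :
    ∑ a, ∑ i, ff G a i i * ff G i a a = d ^ 2 * (c * lam ^ 2 * (d - 1)) := by
  have h1 : ∀ a i, ff G a i i * ff G i a a = (c * lam) * ff G a i i := by
    intro a i
    by_cases hi : i = a
    · rw [hi, ff_left h]; ring
    · have h2 : ff G i a a = c * lam := by
        unfold ff
        rw [h.diag, mul_one, h.prod i a hi, h.hlam]
        ring
      rw [h2]; ring
  simp_rw [h1, ← Finset.mul_sum, ff_trace h]
  rw [Finset.sum_const, Finset.card_univ, nsmul_eq_mul, h.card]
  ring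

end Pool.Agent.Y387.MD
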