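import Mathlib
import Pool.Agent.Y387.MD.Alg

/-!
# The Hilbert-Schmidt norm of the deformation operator
-/

set_option autoImplicit false

open Finset

namespace Pool.Agent.Y387.MD

variable {ι : Type*} [Fintype ι] [DecidableEq ι]
variable {G : ι → ι → ℂ} {d c lam : ℂ}

/-- the cubic part of the kernel -/
def B1 (G : ι → ι → ℂ) (i j b m : ι) : ℂ := ∑ a, ff G i j a * ff G a i b * ff G b a m

/-- the linear part of the kernel -/
def B2 (G : ι → ι → ℂ) (i j b m : ι) : ℂ := if i = b then ff G i j m else 0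

/-- the kernel -/
def AA (G : ι → ι → ℂ) (c lam : ℂ) (p q : ι × ι) : ℂ :=
  B1 G p.1 p.2 q.1 q.2 - c * lam ^ 2 * B2 G p.1 p.2 q.1 q.2

omit [Fintype ι] [DecidableEq ι] in
theorem conj_ff (hG : ∀ i j, (starRingEnd ℂ) (G i j) = G j i) (i j k : ι) :
    (starRingEnd ℂ) (ff G i j k) = ff G i k j := by
  unfold ff
  rw [map_sub, map_mul, map_mul, map_mul, map_mul, map_mul, hG, hG, hG, hG, hG]
  ring

omit [DecidableEq ι] in
theorem conj_B1 (hG : ∀ i j, (starRingEnd ℂ) (G i j) = G j i) (i j b m : ι) :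
    (starRingEnd ℂ) (B1 G i j b m) = ∑ a, ff G i a j * ff G a b i * ff G b m a := by
  unfold B1
  rw [map_sum]
  refine Finset.sum_congr rfl fun a _ => ?_
  rw [map_mul, map_mul, conj_ff hG, conj_ff hG, conj_ff hG]

omit [Fintype ι] in
theorem conj_B2 (hG : ∀ i j, (starRingEnd ℂ) (G i j) = G j i) (i j b m : ι) :
    (starRingEnd ℂ) (B2 G i j b m) = if i = b then ff G i m j else 0 := by
  unfold B2
  split_ifs
  · rw [conj_ff hG]
  · rw [map_zero]

theorem sum_B1B1 (h : GramData G d c lam) (hG : ∀ i j, (starRingEnd ℂ) (G i j) = G j i) :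
    ∑ i, ∑ j, ∑ b, ∑ m, B1 G i j b m * (starRingEnd ℂ) (B1 G i j b m) =
      lam ^ 2 * (d ^ 2 * (c ^ 2 * lam ^ 4 * (d - 1) * (2 + c))) := by
  rw [← four_cycle h, Finset.mul_sum]
  have e1 : ∀ i b a a', ∑ j, ∑ m, (ff G i j a * ff G a i b * ff G b a m) *
      (ff G i a' j * ff G a' b i * ff G b m a') =
      lam ^ 2 * (ff G i a' a * ff G b a a' * (ff G a i b * ff G a' b i)) := by
    intro i b a a'
    have e2 : ∀ j, ∑ m, (ff G i j a * ff G a i b * ff G b a m) *
        (ff G i a' j * ff G a' b i * ff G b m a') =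
        (ff G a i b * ff G a' b i * (lam * ff G b a a')) * (ff G i a' j * ff G i j a) := by
      intro j
      rw [← ff_proj h, Finset.mul_sum, Finset.sum_mul]
      refine Finset.sum_congr rfl fun m _ => ?_
      ring
    simp_rw [e2, ← Finset.mul_sum, ff_proj h]
    ring
  have e3 : ∀ i j b m, B1 G i j b m * (starRingEnd ℂ) (B1 G i j b m) =
      ∑ a, ∑ a', (ff G i j a * ff G a i b * ff G b a m) *
        (ff G i a' j * ff G a' b i * ff G b m a') := by
    intro i j b m
    rw [conj_B1 hG, B1, Finset.sum_mul_sum]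
  simp_rw [e3]
  calc ∑ i, ∑ j, ∑ b, ∑ m, ∑ a, ∑ a', (ff G i j a * ff G a i b * ff G b a m) *
        (ff G i a' j * ff G a' b i * ff G b m a')
      = ∑ i, ∑ b, ∑ j, ∑ m, ∑ a, ∑ a', (ff G i j a * ff G a i b * ff G b a m) *
        (ff G i a' j * ff G a' b i * ff G b m a') :=
        Finset.sum_congr rfl fun i _ => Finset.sum_comm
    _ = ∑ i, ∑ b, ∑ a, ∑ a', ∑ j, ∑ m, (ff G i j a * ff G a i b * ff G b a m) *
        (ff G i a' j * ff G a' b i * ff G b m a') := by
        refine Finset.sum_congr rfl fun i _ => Finset.sum_congr rfl fun b _ => ?_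
        calc _ = ∑ j, ∑ a, ∑ m, ∑ a', (ff G i j a * ff G a i b * ff G b a m) *
              (ff G i a' j * ff G a' b i * ff G b m a') :=
              Finset.sum_congr rfl fun j _ => Finset.sum_comm
          _ = ∑ a, ∑ j, ∑ m, ∑ a', (ff G i j a * ff G a i b * ff G b a m) *
              (ff G i a' j * ff G a' b i * ff G b m a') := Finset.sum_comm
          _ = ∑ a, ∑ a', ∑ j, ∑ m, (ff G i j a * ff G a i b * ff G b a m) *
              (ff G i a' j * ff G a' b i * ff G b m a') := by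
              refine Finset.sum_congr rfl fun a _ => ?_
              calc _ = ∑ j, ∑ a', ∑ m, (ff G i j a * ff G a i b * ff G b a m) *
                    (ff G i a' j * ff G a' b i * ff G b m a') :=
                    Finset.sum_congr rfl fun j _ => Finset.sum_comm
                _ = _ := Finset.sum_comm
    _ = ∑ i, ∑ b, ∑ a, ∑ a', lam ^ 2 * (ff G i a' a * ff G b a a' *
          (ff G a i b * ff G a' b i)) := by
        simp_rw [e1]
    _ = ∑ i, ∑ a, ∑ b, ∑ a', lam ^ 2 * (ff G i a' a * ff G b a a' *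
          (ff G a i b * ff G a' b i)) :=
        Finset.sum_congr rfl fun i _ => Finset.sum_comm
    _ = ∑ a, ∑ i, ∑ b, ∑ a', lam ^ 2 * (ff G i a' a * ff G b a a' *
          (ff G a i b * ff G a' b i)) := Finset.sum_comm
    _ = ∑ a, ∑ i, ∑ a', ∑ b, lam ^ 2 * (ff G i a' a * ff G b a a' *
          (ff G a i b * ff G a' b i)) :=
        Finset.sum_congr rfl fun a _ => Finset.sum_congr rfl fun i _ => Finset.sum_comm
    _ = ∑ a, ∑ a', ∑ i, ∑ b, lam ^ 2 * (ff G i a' a * ff G b a a' *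
          (ff G a i b * ff G a' b i)) :=
        Finset.sum_congr rfl fun a _ => Finset.sum_comm
    _ = _ := by
        refine Finset.sum_congr rfl fun a _ => ?_
        simp_rw [Finset.mul_sum]

theorem sum_B1B2 (h : GramData G d c lam) (hG : ∀ i j, (starRingEnd ℂ) (G i j) = G j i) :
    ∑ i, ∑ j, ∑ b, ∑ m, B1 G i j b m * (starRingEnd ℂ) (B2 G i j b m) =
      lam ^ 2 * (d ^ 2 * (c * lam ^ 2 * (d - 1))) := by
  have e0 : ∀ i j, ∑ b, ∑ m, B1 G i j b m * (starRingEnd ℂ) (B2 G i j b m) =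
      ∑ m, B1 G i j i m * ff G i m j := by
    intro i j
    rw [Finset.sum_comm]
    refine Finset.sum_congr rfl fun m _ => ?_
    simp_rw [conj_B2 hG, mul_ite, mul_zero]
    rw [Finset.sum_ite_eq, if_pos (Finset.mem_univ _)]
  simp_rw [e0]
  have e1 : ∀ i j m, B1 G i j i m * ff G i m j =
      ∑ a, (ff G i j a * ff G a i i * ff G i a m) * ff G i m j := by
    intro i j m
    rw [B1, Finset.sum_mul]
  simp_rw [e1]
  have e2 : ∀ i j, ∑ m, ∑ a, (ff G i j a * ff G a i i * ff G i a m) * ff G i m j =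
      ∑ a, (ff G a i i * lam) * (ff G i a j * ff G i j a) := by
    intro i j
    rw [Finset.sum_comm]
    refine Finset.sum_congr rfl fun a _ => ?_
    rw [mul_assoc (ff G a i i), ← mul_assoc lam, ← ff_proj h, Finset.sum_mul, Finset.mul_sum]
    refine Finset.sum_congr rfl fun m _ => ?_
    ring
  simp_rw [e2]
  have e3 : ∀ i, ∑ j, ∑ a, (ff G a i i * lam) * (ff G i a j * ff G i j a) =
      ∑ a, lam ^ 2 * (ff G i a a * ff G a i i) := by
    intro i
    rw [Finset.sum_comm]
    refine Finset.sum_congr rfl fun a _ => ?_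
    rw [← Finset.mul_sum, ff_proj h]
    ring
  simp_rw [e3]
  rw [← two_cycle h, Finset.mul_sum]
  refine Finset.sum_congr rfl fun i _ => ?_
  rw [Finset.mul_sum]

theorem sum_B2B2 (h : GramData G d c lam) (hG : ∀ i j, (starRingEnd ℂ) (G i j) = G j i) :
    ∑ i, ∑ j, ∑ b, ∑ m, B2 G i j b m * (starRingEnd ℂ) (B2 G i j b m) =
      lam * (d ^ 2 * (lam * (d - 1))) := by
  have e0 : ∀ i j, ∑ b, ∑ m, B2 G i j b m * (starRingEnd ℂ) (B2 G i j b m) =
      lam * ff G i j j := by
    intro i j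
    rw [Finset.sum_comm, ← ff_proj h]
    refine Finset.sum_congr rfl fun m _ => ?_
    simp_rw [conj_B2 hG, mul_ite, mul_zero]
    rw [Finset.sum_ite_eq, if_pos (Finset.mem_univ _), B2, if_pos rfl]
  simp_rw [e0, ← Finset.mul_sum, ff_trace h]
  rw [Finset.sum_const, Finset.card_univ, nsmul_eq_mul, h.card]

/-- the Hilbert-Schmidt norm of the kernel -/
theorem hs_norm (h : GramData G d c lam) (hG : ∀ i j, (starRingEnd ℂ) (G i j) = G j i)
    (hc : (starRingEnd ℂ) c = c) (hl : (starRingEnd ℂ) lam = lam)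
    (hd : (starRingEnd ℂ) d = d) :
    ∑ p, ∑ q, AA G c lam p q * (starRingEnd ℂ) (AA G c lam p q) =
      (d - 1) * (1 + c) * lam ^ 8 := by
  have key : ∀ i j b m, AA G c lam (i, j) (b, m) * (starRingEnd ℂ) (AA G c lam (i, j) (b, m)) =
      B1 G i j b m * (starRingEnd ℂ) (B1 G i j b m) -
      c * lam ^ 2 * (B1 G i j b m * (starRingEnd ℂ) (B2 G i j b m)) -
      c * lam ^ 2 * (starRingEnd ℂ) (B1 G i j b m * (starRingEnd ℂ) (B2 G i j b m)) +
      (c * lam ^ 2) ^ 2 * (B2 G i j b m * (starRingEnd ℂ) (B2 G i j b m)) := by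
    intro i j b m
    unfold AA
    simp only [map_sub, map_mul, map_pow, hc, hl, Complex.conj_conj]
    ring
  simp_rw [Fintype.sum_prod_type, key, Finset.sum_add_distrib, Finset.sum_sub_distrib,
    ← Finset.mul_sum, ← map_sum]
  rw [sum_B1B1 h hG, sum_B1B2 h hG, sum_B2B2 h hG]
  simp only [map_sub, map_mul, map_pow, hc, hl, hd, map_one]
  have e1 := h.hcd
  linear_combination ((d - 1) * (1 + c) * lam ^ 6) * (c * d + lam) * e1

/-- the space of antisymmetric matrices whose rows are tangent -/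
def WZ (G : ι → ι → ℂ) (lam : ℂ) : Submodule ℂ (EuclideanSpace ℂ (ι × ι)) where
  carrier := {z | (∀ i j, ∑ k, ff G i j k * z (i, k) = lam * z (i, j)) ∧
    ∀ i j, z (j, i) = -z (i, j)}
  zero_mem' := by
    constructor
    · intro i j
      simp
    · intro i j
      simp
  add_mem' := by
    rintro u v ⟨hu1, hu2⟩ ⟨hv1, hv2⟩
    constructor
    · intro i j
      simp only [PiLp.add_apply, mul_add, Finset.sum_add_distrib, hu1, hv1]
    · intro i j
      simp only [PiLp.add_apply, hu2 i j, hv2 i j]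
      ring
  smul_mem' := by
    rintro s u ⟨hu1, hu2⟩
    constructor
    · intro i j
      have h1 : ∀ k, ff G i j k * (s • u) (i, k) = s * (ff G i j k * u (i, k)) := by
        intro k
        simp only [PiLp.smul_apply, smul_eq_mul]
        ring
      simp_rw [h1, ← Finset.mul_sum, hu1, PiLp.smul_apply, smul_eq_mul]
      ring
    · intro i j
      simp only [PiLp.smul_apply, smul_eq_mul, hu2 i j]
      ring

/-- elements of the space are eigenvectors of the kernel -/
theorem AA_eigen (h : GramData G d c lam) {z : EuclideanSpace ℂ (ι × ι)} (hz : z ∈ WZ G lam)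
    (p : ι × ι) : ∑ q, AA G c lam p q * z q = lam ^ 4 * z p := by
  obtain ⟨i, j⟩ := p
  obtain ⟨hz1, hz2⟩ := hz
  have e1 : ∑ b, ∑ m, B1 G i j b m * z (b, m) = lam ^ 3 * z (i, j) := by
    have f1 : ∀ b, ∑ m, B1 G i j b m * z (b, m) =
        ∑ a, (ff G i j a * ff G a i b) * (lam * z (b, a)) := by
      intro b
      simp_rw [B1, Finset.sum_mul]
      rw [Finset.sum_comm]
      refine Finset.sum_congr rfl fun a _ => ?_
      rw [← hz1, Finset.mul_sum]
      refine Finset.sum_congr rfl fun m _ => ?_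
      ring
    simp_rw [f1]
    rw [Finset.sum_comm]
    have f2 : ∀ a, ∑ b, (ff G i j a * ff G a i b) * (lam * z (b, a)) =
        lam ^ 2 * (ff G i j a * z (i, a)) := by
      intro a
      have f3 : ∀ b, (ff G i j a * ff G a i b) * (lam * z (b, a)) =
          (-(ff G i j a * lam)) * (ff G a i b * z (a, b)) := by
        intro b
        rw [hz2 a b]; ring
      simp_rw [f3, ← Finset.mul_sum, hz1, hz2 i a]
      ring
    simp_rw [f2, ← Finset.mul_sum, hz1]
    ring
  have e2 : ∑ b, ∑ m, B2 G i j b m * z (b, m) = lam * z (i, j) := by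
    rw [Finset.sum_comm, ← hz1]
    refine Finset.sum_congr rfl fun m _ => ?_
    simp_rw [B2, ite_mul, zero_mul]
    rw [Finset.sum_ite_eq, if_pos (Finset.mem_univ _)]
  have e3 : ∀ b m, AA G c lam (i, j) (b, m) * z (b, m) =
      B1 G i j b m * z (b, m) - c * lam ^ 2 * (B2 G i j b m * z (b, m)) := by
    intro b m
    unfold AA
    ring
  simp_rw [Fintype.sum_prod_type, e3, Finset.sum_sub_distrib, ← Finset.mul_sum]
  rw [e1, e2]
  have := h.hlam
  linear_combination (-lam ^ 3 * z (i, j)) * this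

/-- **The spectral bound.** -/
theorem finrank_WZ (h : GramData G d c lam) (hG : ∀ i j, (starRingEnd ℂ) (G i j) = G j i)
    {D : ℕ} (hD : 1 ≤ D) (hdD : d = D) (hcD : c = 1 / ((D : ℂ) + 1)) :
    Module.finrank ℂ (WZ G lam) ≤ D - 1 := by
  set b := stdOrthonormalBasis ℂ (WZ G lam) with hb
  set e : Fin (Module.finrank ℂ (WZ G lam)) → EuclideanSpace ℂ (ι × ι) :=
    fun a => (b a : EuclideanSpace ℂ (ι × ι)) with he
  have hon : Orthonormal ℂ e := b.orthonormal.comp_linearIsometry (WZ G lam).subtypeₗᵢ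
  set r : ι × ι → EuclideanSpace ℂ (ι × ι) :=
    fun p => WithLp.toLp 2 (fun q => (starRingEnd ℂ) (AA G c lam p q)) with hr
  have hD1 : (D : ℝ) + 1 ≠ 0 := by positivity
  set l : ℝ := (D : ℝ) / (D + 1) with hl
  have hlam : lam = (l : ℂ) := by
    rw [h.hlam, hcD, hl]
    have : (D : ℂ) + 1 ≠ 0 := by exact_mod_cast D.succ_ne_zero
    push_cast
    field_simp
    ring
  have hc' : c = ((1 / ((D : ℝ) + 1) : ℝ) : ℂ) := by
    rw [hcD]; push_cast; ring
  have hl0 : 0 < l := by
    have : (0 : ℝ) < D := by exact_mod_cast hD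
    positivity
  -- inner products
  have hin : ∀ p a, ‖inner ℂ (e a) (r p)‖ ^ 2 = l ^ 8 * ‖e a p‖ ^ 2 := by
    intro p a
    have h1 : inner ℂ (e a) (r p) = (starRingEnd ℂ) (lam ^ 4 * e a p) := by
      rw [← AA_eigen h (b a).2, PiLp.inner_apply, map_sum]
      refine Finset.sum_congr rfl fun q _ => ?_
      rw [map_mul]
      simp only [hr, RCLike.inner_apply]
      rfl
    rw [h1, RCLike.norm_conj, norm_mul, norm_pow, hlam, Complex.norm_real, Real.norm_eq_abs,
      abs_of_pos hl0]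
    ring
  have hbessel : ∀ p, ∑ a, ‖inner ℂ (e a) (r p)‖ ^ 2 ≤ ‖r p‖ ^ 2 := fun p =>
    hon.sum_inner_products_le (r p)
  have hsum : ∑ p, ∑ a, ‖inner ℂ (e a) (r p)‖ ^ 2 = l ^ 8 * Module.finrank ℂ (WZ G lam) := by
    simp_rw [hin]
    rw [Finset.sum_comm]
    simp_rw [← Finset.mul_sum]
    congr 1
    have h1 : ∀ a, ∑ p, ‖e a p‖ ^ 2 = 1 := by
      intro a
      have h2 := EuclideanSpace.norm_sq_eq (e a)
      rw [hon.1 a] at h2
      rw [← h2]; norm_num
    simp_rw [h1]
    simp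
  have hrn : ∑ p, ‖r p‖ ^ 2 = ((D : ℝ) - 1) * (1 + 1 / ((D : ℝ) + 1)) * l ^ 8 := by
    have h1 := hs_norm h hG (by rw [hc', Complex.conj_ofReal]) (by rw [hlam, Complex.conj_ofReal])
      (by rw [hdD, Complex.conj_natCast])
    have h2 : ((∑ p, ‖r p‖ ^ 2 : ℝ) : ℂ) = ∑ p, ∑ q, AA G c lam p q *
        (starRingEnd ℂ) (AA G c lam p q) := by
      push_cast
      refine Finset.sum_congr rfl fun p _ => ?_
      have h3 := EuclideanSpace.norm_sq_eq (r p)
      rw [← Complex.ofReal_pow, h3]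
      push_cast
      refine Finset.sum_congr rfl fun q _ => ?_
      rw [Complex.mul_conj, Complex.normSq_eq_norm_sq]
      simp only [hr, RCLike.norm_conj]
      push_cast
      ring
    rw [h1, hlam, hc', hdD] at h2
    have h3 : ((∑ p, ‖r p‖ ^ 2 : ℝ) : ℂ) =
        ((((D : ℝ) - 1) * (1 + 1 / ((D : ℝ) + 1)) * l ^ 8 : ℝ) : ℂ) := by
      rw [h2]; push_cast; ring
    exact Complex.ofReal_injective h3
  have hle : l ^ 8 * Module.finrank ℂ (WZ G lam) ≤
      ((D : ℝ) - 1) * (1 + 1 / ((D : ℝ) + 1)) * l ^ 8 := by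
    rw [← hsum, ← hrn]
    exact Finset.sum_le_sum fun p _ => hbessel p
  have hle2 : (Module.finrank ℂ (WZ G lam) : ℝ) ≤ ((D : ℝ) - 1) * (1 + 1 / ((D : ℝ) + 1)) := by
    have h8 : 0 < l ^ 8 := by positivity
    rw [mul_comm (l ^ 8)] at hle
    exact le_of_mul_le_mul_right hle h8
  have hlt : (Module.finrank ℂ (WZ G lam) : ℝ) < D := by
    refine hle2.trans_lt ?_
    have h1 : ((D : ℝ) - 1) * (1 + 1 / ((D : ℝ) + 1)) = D - 2 / (D + 1) := by
      field_simp
      ring
    rw [h1]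
    have : (0 : ℝ) < 2 / (D + 1) := by positivity
    linarith
  have hlt' : Module.finrank ℂ (WZ G lam) < D := by exact_mod_cast hlt
  omega

end Pool.Agent.Y387.MD
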