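import Mathlib
import Pool.Agent.Y387.MD.Hs
import Pool.Agent.Y387.SF.Etf

/-!
# First order deformations of a maximal equiangular tight frame
-/

set_option autoImplicit false

open Finset

namespace Pool.Agent.Y387.MD

open Pool.Agent.Y387.SF

variable {V : Type*} [NormedAddCommGroup V] [InnerProductSpace ℂ V] [FiniteDimensional ℂ V]
variable {ι : Type*} [Fintype ι] [DecidableEq ι] {d : ℕ} {x : ι → V}

/-- the tight frame identity -/
theorem frame (h : IsEtf d x) (hd : 1 ≤ d) (hcard : Fintype.card ι = d ^ 2)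
    (hV : Module.finrank ℂ V = d) (v : V) : ∑ j, inner ℂ (x j) v • x j = (d : ℂ) • v := by
  have hd1 : (d : ℂ) + 1 ≠ 0 := by exact_mod_cast d.succ_ne_zero
  have h1 : (∑ j, pr (x j)) - (d : ℂ) • LinearMap.id = (0 : V →ₗ[ℂ] V) := by
    apply h.op_zero hd hcard hV
    intro k
    rw [LinearMap.sub_apply, LinearMap.sum_apply, inner_sub_right, inner_sum]
    simp only [pr_apply, inner_smul_right, LinearMap.smul_apply, LinearMap.id_apply,
      h.inner_self, h.mul_inner]
    rw [Finset.sum_add_distrib, Finset.sum_ite_eq', if_pos (Finset.mem_univ _), Finset.sum_const,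
      Finset.card_univ, hcard, nsmul_eq_mul]
    push_cast
    field_simp
    ring
  have h2 := LinearMap.congr_fun h1 v
  rw [LinearMap.sub_apply, LinearMap.sum_apply, LinearMap.zero_apply, sub_eq_zero] at h2
  exact h2

theorem frame_inner (h : IsEtf d x) (hd : 1 ≤ d) (hcard : Fintype.card ι = d ^ 2)
    (hV : Module.finrank ℂ V = d) (u v : V) :
    ∑ j, inner ℂ u (x j) * inner ℂ (x j) v = (d : ℂ) * inner ℂ u v := by
  rw [← inner_smul_right, ← frame h hd hcard hV v, inner_sum]
  refine Finset.sum_congr rfl fun j _ => ?_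
  rw [inner_smul_right]
  ring

/-- the design identity -/
theorem design (h : IsEtf d x) (hd : 1 ≤ d) (hcard : Fintype.card ι = d ^ 2)
    (hV : Module.finrank ℂ V = d) (u w a b : V) :
    ∑ j, (inner ℂ u (x j) * inner ℂ w (x j)) * (inner ℂ (x j) a * inner ℂ (x j) b) =
      ((d : ℂ) / (d + 1)) * (inner ℂ u a * inner ℂ w b + inner ℂ u b * inner ℂ w a) := by
  have hd1 : (d : ℂ) + 1 ≠ 0 := by exact_mod_cast d.succ_ne_zero
  have h1 : (∑ j, (inner ℂ u (x j) * inner ℂ (x j) a) • pr (x j)) -
      ((d : ℂ) / (d + 1)) • ((inner ℂ u a) • LinearMap.id +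
        ((LinearMap.toSpanSingleton ℂ V a) ∘ₗ (innerₛₗ ℂ u))) = (0 : V →ₗ[ℂ] V) := by
    apply h.op_zero hd hcard hV
    intro k
    simp only [LinearMap.sub_apply, LinearMap.sum_apply, inner_sub_right, inner_sum,
      LinearMap.smul_apply, LinearMap.add_apply, LinearMap.id_apply, LinearMap.comp_apply,
      LinearMap.toSpanSingleton_apply, innerₛₗ_apply_apply, pr_apply, inner_smul_right,
      inner_add_right, h.inner_self]
    have e1 : ∀ j, inner ℂ u (x j) * inner ℂ (x j) a * (inner ℂ (x j) (x k) *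
        inner ℂ (x k) (x j)) = (if k = j then (d : ℂ) / (d + 1) *
          (inner ℂ u (x j) * inner ℂ (x j) a) else 0) +
          1 / ((d : ℂ) + 1) * (inner ℂ u (x j) * inner ℂ (x j) a) := by
      intro j
      rw [h.mul_inner]
      by_cases hjk : j = k
      · rw [if_pos hjk, if_pos hjk.symm]; ring
      · rw [if_neg hjk, if_neg (Ne.symm hjk)]; ring
    simp_rw [e1]
    rw [Finset.sum_add_distrib, Finset.sum_ite_eq, if_pos (Finset.mem_univ _), ← Finset.mul_sum,
      frame_inner h hd hcard hV]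
    field_simp
    ring
  have h2 := congrArg (fun M : V →ₗ[ℂ] V => inner ℂ w (M b)) h1
  simp only [LinearMap.sub_apply, LinearMap.sum_apply, inner_sub_right, inner_sum,
      LinearMap.smul_apply, LinearMap.add_apply, LinearMap.id_apply, LinearMap.comp_apply,
      LinearMap.toSpanSingleton_apply, innerₛₗ_apply_apply, pr_apply, inner_smul_right,
      inner_add_right, LinearMap.zero_apply, inner_zero_right] at h2
  rw [sub_eq_zero] at h2
  calc _ = ∑ j, inner ℂ u (x j) * inner ℂ (x j) a * (inner ℂ (x j) b * inner ℂ w (x j)) := by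
        refine Finset.sum_congr rfl fun j _ => ?_
        ring
    _ = _ := by rw [h2]

/-- the Gram matrix -/
noncomputable def gm (x : ι → V) (i j : ι) : ℂ := inner ℂ (x i) (x j)

omit [FiniteDimensional ℂ V] [Fintype ι] [DecidableEq ι] in
theorem conj_gm (i j : ι) : (starRingEnd ℂ) (gm x i j) = gm x j i := inner_conj_symm _ _

theorem gramData (h : IsEtf d x) (hd : 1 ≤ d) (hcard : Fintype.card ι = d ^ 2)
    (hV : Module.finrank ℂ V = d) :
    GramData (gm x) (d : ℂ) (1 / ((d : ℂ) + 1)) ((d : ℂ) / (d + 1)) where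
  diag i := h.inner_self i
  prod i j hij := by
    unfold gm
    rw [h.mul_inner, if_neg hij, zero_add]
  D1 i k := frame_inner h hd hcard hV _ _
  D2 i k a b := design h hd hcard hV _ _ _ _
  hcd := by ring
  hlam := by
    have hd1 : (d : ℂ) + 1 ≠ 0 := by exact_mod_cast d.succ_ne_zero
    field_simp
    ring
  card := by rw [hcard]; push_cast; ring

/-- the nontrivial deformations -/
noncomputable def NN (x : ι → V) : Submodule ℂ (ι → V) where
  carrier := {w | (∀ i, inner ℂ (x i) (w i) = 0) ∧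
    (∀ i j, gm x i j * inner ℂ (x j) (w i) + gm x j i * inner ℂ (x i) (w j) = 0) ∧
    ∀ u, ∑ j, inner ℂ (x j) u • w j = 0}
  zero_mem' := by
    refine ⟨fun i => ?_, fun i j => ?_, fun u => ?_⟩ <;> simp
  add_mem' := by
    rintro v w ⟨hv1, hv2, hv3⟩ ⟨hw1, hw2, hw3⟩
    refine ⟨fun i => ?_, fun i j => ?_, fun u => ?_⟩
    · rw [Pi.add_apply, inner_add_right, hv1, hw1, add_zero]
    · rw [Pi.add_apply, Pi.add_apply, inner_add_right, inner_add_right]
      linear_combination hv2 i j + hw2 i j
    · simp only [Pi.add_apply, smul_add, Finset.sum_add_distrib, hv3, hw3, add_zero]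
  smul_mem' := by
    rintro s v ⟨hv1, hv2, hv3⟩
    refine ⟨fun i => ?_, fun i j => ?_, fun u => ?_⟩
    · rw [Pi.smul_apply, inner_smul_right, hv1, mul_zero]
    · rw [Pi.smul_apply, Pi.smul_apply, inner_smul_right, inner_smul_right]
      linear_combination s * hv2 i j
    · have h1 : ∀ j, inner ℂ (x j) u • (s • v) j = s • (inner ℂ (x j) u • v j) := by
        intro j
        rw [Pi.smul_apply, smul_comm]
      simp_rw [h1, ← Finset.smul_sum, hv3, smul_zero]

/-- the matrix of a deformation -/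
noncomputable def zmap (x : ι → V) : (ι → V) →ₗ[ℂ] EuclideanSpace ℂ (ι × ι) where
  toFun w := WithLp.toLp 2 (fun p => gm x p.1 p.2 * inner ℂ (x p.2) (w p.1))
  map_add' v w := by
    ext p
    simp only [Pi.add_apply, inner_add_right, PiLp.add_apply]
    ring
  map_smul' s v := by
    ext p
    simp only [Pi.smul_apply, inner_smul_right, PiLp.smul_apply, RingHom.id_apply, smul_eq_mul]
    ring

omit [FiniteDimensional ℂ V] [Fintype ι] [DecidableEq ι] in
theorem zmap_apply [Fintype ι] (w : ι → V) (i j : ι) :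
    zmap x w (i, j) = gm x i j * inner ℂ (x j) (w i) := rfl

theorem zmap_mem (h : IsEtf d x) (hd : 1 ≤ d) (hcard : Fintype.card ι = d ^ 2)
    (hV : Module.finrank ℂ V = d) {w : ι → V} (hw : w ∈ NN x) :
    zmap x w ∈ WZ (gm x) ((d : ℂ) / (d + 1)) := by
  have hg := gramData h hd hcard hV
  obtain ⟨hw1, hw2, hw3⟩ := hw
  constructor
  · intro i j
    have e1 : ∀ k, ff (gm x) i j k * zmap x w (i, k) = gm x i j *
        ((gm x i k * gm x k i) * ((gm x j k - gm x j i * gm x i k) * inner ℂ (x k) (w i))) := by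
      intro k
      rw [zmap_apply]
      unfold ff
      ring
    simp_rw [e1]
    rw [← Finset.mul_sum, psum hg, hg.diag, mul_one, sub_self, zero_mul, mul_zero, add_zero]
    have e2 : ∑ k, (gm x j k - gm x j i * gm x i k) * inner ℂ (x k) (w i) =
        d * inner ℂ (x j) (w i) := by
      have f1 := frame_inner h hd hcard hV (x j) (w i)
      have f2 := frame_inner h hd hcard hV (x i) (w i)
      have f3 : ∀ k, (gm x j k - gm x j i * gm x i k) * inner ℂ (x k) (w i) =
          inner ℂ (x j) (x k) * inner ℂ (x k) (w i) -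
          gm x j i * (inner ℂ (x i) (x k) * inner ℂ (x k) (w i)) := by
        intro k
        unfold gm
        ring
      simp_rw [f3]
      rw [Finset.sum_sub_distrib, ← Finset.mul_sum, f1, f2, hw1]
      ring
    rw [e2, zmap_apply]
    ring
  · intro i j
    rw [zmap_apply, zmap_apply]
    linear_combination hw2 i j

theorem zmap_inj (h : IsEtf d x) (hd : 1 ≤ d) (hcard : Fintype.card ι = d ^ 2)
    (hV : Module.finrank ℂ V = d) : Function.Injective (zmap x) := by
  rw [injective_iff_map_eq_zero]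
  intro w hw
  have hd0 : (d : ℂ) ≠ 0 := by
    have : d ≠ 0 := by omega
    exact_mod_cast this
  funext i
  have h1 : ∀ j, inner ℂ (x j) (w i) = 0 := by
    intro j
    have h2 : zmap x w (i, j) = 0 := by rw [hw]; rfl
    rw [zmap_apply] at h2
    rcases mul_eq_zero.1 h2 with h3 | h3
    · exact absurd h3 (h.ne_zero i j)
    · exact h3
  have h2 := frame h hd hcard hV (w i)
  simp_rw [h1, zero_smul, Finset.sum_const_zero] at h2
  rcases smul_eq_zero.1 h2.symm with h3 | h3
  · exact absurd h3 hd0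
  · exact h3

theorem finrank_NN (h : IsEtf d x) (hd : 1 ≤ d) (hcard : Fintype.card ι = d ^ 2)
    (hV : Module.finrank ℂ V = d) : Module.finrank ℂ (NN x) ≤ d - 1 := by
  have hg := gramData h hd hcard hV
  refine le_trans ?_ (finrank_WZ hg conj_gm hd rfl rfl)
  set f : NN x →ₗ[ℂ] WZ (gm x) ((d : ℂ) / (d + 1)) :=
    LinearMap.codRestrict _ ((zmap x).comp (NN x).subtype)
      (fun w => zmap_mem h hd hcard hV w.2) with hf
  apply LinearMap.finrank_le_finrank_of_injective (f := f)
  intro u v huv
  apply Subtype.ext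
  apply zmap_inj h hd hcard hV
  exact congrArg Subtype.val huv

/-- the derivative of the squared moduli of the inner products vanishes -/
def IsDef (x v : ι → V) : Prop :=
  ∀ i j, (gm x i j * (inner ℂ (v j) (x i) + inner ℂ (x j) (v i))).re = 0

omit [FiniteDimensional ℂ V] [Fintype ι] [DecidableEq ι] in
theorem IsDef.sub {v w : ι → V} (hv : IsDef x v) (hw : IsDef x w) : IsDef x (v - w) := by
  intro i j
  have h1 := hv i j
  have h2 := hw i j
  rw [Pi.sub_apply, Pi.sub_apply, inner_sub_left, inner_sub_right]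
  have e1 : gm x i j * (inner ℂ (v j) (x i) - inner ℂ (w j) (x i) +
      (inner ℂ (x j) (v i) - inner ℂ (x j) (w i))) =
      gm x i j * (inner ℂ (v j) (x i) + inner ℂ (x j) (v i)) -
      gm x i j * (inner ℂ (w j) (x i) + inner ℂ (x j) (w i)) := by ring
  rw [e1, Complex.sub_re, h1, h2, sub_zero]

omit [FiniteDimensional ℂ V] [Fintype ι] [DecidableEq ι] in
theorem IsDef.add {v w : ι → V} (hv : IsDef x v) (hw : IsDef x w) : IsDef x (v + w) := by
  intro i j
  have h1 := hv i j
  have h2 := hw i j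
  rw [Pi.add_apply, Pi.add_apply, inner_add_left, inner_add_right]
  have e1 : gm x i j * (inner ℂ (v j) (x i) + inner ℂ (w j) (x i) +
      (inner ℂ (x j) (v i) + inner ℂ (x j) (w i))) =
      gm x i j * (inner ℂ (v j) (x i) + inner ℂ (x j) (v i)) +
      gm x i j * (inner ℂ (w j) (x i) + inner ℂ (x j) (w i)) := by ring
  rw [e1, Complex.add_re, h1, h2, add_zero]

omit [FiniteDimensional ℂ V] [Fintype ι] in
theorem isDef_phase (h : IsEtf d x) (θ : ι → ℝ) :
    IsDef x (fun i => ((θ i : ℂ) * Complex.I) • x i) := by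
  intro i j
  simp only [inner_smul_left, inner_smul_right, map_mul, Complex.conj_ofReal, Complex.conj_I]
  have e1 : gm x i j * ((θ j : ℂ) * -Complex.I * inner ℂ (x j) (x i) +
      (θ i : ℂ) * Complex.I * inner ℂ (x j) (x i)) =
      (((θ i - θ j : ℝ)) : ℂ) * Complex.I * (inner ℂ (x i) (x j) * inner ℂ (x j) (x i)) := by
    unfold gm
    push_cast
    ring
  rw [e1, h.mul_inner]
  have e2 : ∃ r : ℝ, (if i = j then (d : ℂ) / (d + 1) else 0) + 1 / ((d : ℂ) + 1) = (r : ℂ) := by
    refine ⟨(if i = j then (d : ℝ) / (d + 1) else 0) + 1 / ((d : ℝ) + 1), ?_⟩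
    split_ifs <;> push_cast <;> rfl
  obtain ⟨r, hr⟩ := e2
  rw [hr]
  simp

omit [FiniteDimensional ℂ V] [Fintype ι] [DecidableEq ι] in
theorem isDef_skew {A : V →ₗ[ℂ] V} (hA : ∀ a b, inner ℂ (A a) b = -inner ℂ a (A b)) :
    IsDef x (fun i => A (x i)) := by
  intro i j
  simp only [hA]
  simp

omit [FiniteDimensional ℂ V] [DecidableEq ι] in
theorem isDef_NN {w : ι → V} (hw : w ∈ NN x) : IsDef x w := by
  intro i j
  have h1 := hw.2.1 i j
  have h2 : (gm x i j * (inner ℂ (w j) (x i) + inner ℂ (x j) (w i))).re =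
      (gm x i j * inner ℂ (x j) (w i) + gm x j i * inner ℂ (x i) (w j)).re := by
    rw [mul_add, Complex.add_re, Complex.add_re, add_comm]
    congr 1
    rw [← Complex.conj_re, map_mul, conj_gm, inner_conj_symm]
  rw [h2, h1, Complex.zero_re]

end Pool.Agent.Y387.MD
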