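import Mathlib
import Pool.Agent.Y387.MD.Def

/-!
# Decomposition of the first order deformations
-/

set_option autoImplicit false

open Finset

namespace Pool.Agent.Y387.MD

open Pool.Agent.Y387.SF

variable {V : Type*} [NormedAddCommGroup V] [InnerProductSpace ℂ V] [FiniteDimensional ℂ V]
variable {ι : Type*} [Fintype ι] [DecidableEq ι] {d : ℕ} {x : ι → V}

theorem mem_NN_of (h : IsEtf d x) (hd : 1 ≤ d) (hcard : Fintype.card ι = d ^ 2)
    (hV : Module.finrank ℂ V = d) {w : ι → V} (hw0 : ∀ i, inner ℂ (x i) (w i) = 0)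
    (hdef : IsDef x w) (hY : ∀ u, ∑ j, inner ℂ (x j) u • w j = 0) : w ∈ NN x := by
  have hg := gramData h hd hcard hV
  refine ⟨hw0, ?_, hY⟩
  set s : ι → ι → ℂ := fun i j => gm x i j * inner ℂ (x j) (w i) +
    gm x j i * inner ℂ (x i) (w j) with hs
  have hre : ∀ i j, (s i j).re = 0 := by
    intro i j
    have h1 := hdef i j
    rw [mul_add, Complex.add_re] at h1
    have h2 : (gm x j i * inner ℂ (x i) (w j)).re = (gm x i j * inner ℂ (w j) (x i)).re := by
      rw [← Complex.conj_re, map_mul, conj_gm, inner_conj_symm]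
    have h3 : (s i j).re = (gm x i j * inner ℂ (x j) (w i)).re +
        (gm x j i * inner ℂ (x i) (w j)).re := Complex.add_re _ _
    rw [h3, h2]
    linarith
  have e1 : ∀ i, ∑ j, (gm x i j * inner ℂ (x j) (w i)) ^ 2 = 0 := by
    intro i
    have h1 := design h hd hcard hV (x i) (x i) (w i) (w i)
    rw [hw0] at h1
    calc _ = ∑ j, (inner ℂ (x i) (x j) * inner ℂ (x i) (x j)) *
          (inner ℂ (x j) (w i) * inner ℂ (x j) (w i)) := by
          refine Finset.sum_congr rfl fun j _ => ?_
          unfold gm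
          ring
      _ = 0 := by rw [h1]; ring
  have e2 : ∀ i, ∑ j, (gm x i j * inner ℂ (x j) (w i)) * (gm x j i * inner ℂ (x i) (w j)) = 0 := by
    intro i
    have h1 : ∀ j, (gm x i j * inner ℂ (x j) (w i)) * (gm x j i * inner ℂ (x i) (w j)) =
        (gm x i j * gm x j i) * (inner ℂ (x j) (w i) * inner ℂ (x i) (w j)) := by
      intro j; ring
    simp_rw [h1]
    rw [psum hg, hw0, zero_mul, mul_zero, add_zero]
    have h2 := hY (w i)
    have h3 : ∑ j, inner ℂ (x j) (w i) * inner ℂ (x i) (w j) =
        inner ℂ (x i) (∑ j, inner ℂ (x j) (w i) • w j) := by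
      rw [inner_sum]
      refine Finset.sum_congr rfl fun j _ => ?_
      rw [inner_smul_right]
    rw [h3, h2, inner_zero_right, mul_zero]
  have e3 : ∑ i, ∑ j, s i j ^ 2 = 0 := by
    have h1 : ∀ i j, s i j ^ 2 = (gm x i j * inner ℂ (x j) (w i)) ^ 2 +
        (gm x j i * inner ℂ (x i) (w j)) ^ 2 +
        2 * ((gm x i j * inner ℂ (x j) (w i)) * (gm x j i * inner ℂ (x i) (w j))) := by
      intro i j
      rw [hs]
      ring
    simp_rw [h1, Finset.sum_add_distrib, ← Finset.mul_sum, e2, e1]
    rw [Finset.sum_comm]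
    simp_rw [e1]
    simp
  have e4 : ∀ i j, s i j ^ 2 = ((-((s i j).im ^ 2) : ℝ) : ℂ) := by
    intro i j
    have h1 : s i j = ((s i j).im : ℂ) * Complex.I := by
      apply Complex.ext
      · simp [hre]
      · simp
    rw [h1]
    push_cast
    simp only [Complex.mul_im, Complex.ofReal_re, Complex.I_im, Complex.ofReal_im, Complex.I_re,
      mul_one, mul_zero, add_zero]
    rw [mul_pow, Complex.I_sq]
    ring
  have e5 : ∑ i, ∑ j, (s i j).im ^ 2 = 0 := by
    have h1 : ((∑ i, ∑ j, (s i j).im ^ 2 : ℝ) : ℂ) = -(∑ i, ∑ j, s i j ^ 2) := by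
      simp_rw [e4]
      push_cast
      simp
    rw [e3, neg_zero] at h1
    exact_mod_cast h1
  have e6 : ∀ i j, (s i j).im = 0 := by
    intro i j
    rw [Finset.sum_eq_zero_iff_of_nonneg (fun i _ => Finset.sum_nonneg fun j _ => sq_nonneg _)] at e5
    have h1 := e5 i (Finset.mem_univ _)
    rw [Finset.sum_eq_zero_iff_of_nonneg (fun j _ => sq_nonneg _)] at h1
    have h2 := h1 j (Finset.mem_univ _)
    exact pow_eq_zero_iff (two_ne_zero) |>.1 h2
  intro i j
  exact Complex.ext (hre i j) (e6 i j)

/-- the operator of a family -/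
noncomputable def op (x u : ι → V) : V →ₗ[ℂ] V where
  toFun v := ∑ j, inner ℂ (x j) v • u j
  map_add' a b := by
    simp only [inner_add_right, add_smul, Finset.sum_add_distrib]
  map_smul' s a := by
    simp only [inner_smul_right, mul_smul, ← Finset.smul_sum, RingHom.id_apply]

omit [FiniteDimensional ℂ V] [DecidableEq ι] in
theorem op_apply (x u : ι → V) (v : V) : op x u v = ∑ j, inner ℂ (x j) v • u j := rfl

omit [FiniteDimensional ℂ V] [DecidableEq ι] in
theorem inner_op (x u : ι → V) (a v : V) :
    inner ℂ a (op x u v) = ∑ j, inner ℂ (x j) v * inner ℂ a (u j) := by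
  rw [op_apply, inner_sum]
  refine Finset.sum_congr rfl fun j _ => ?_
  rw [inner_smul_right]

/-- the operator of a tangent deformation is skew-adjoint -/
theorem op_skew (h : IsEtf d x) (hd : 1 ≤ d) (hcard : Fintype.card ι = d ^ 2)
    (hV : Module.finrank ℂ V = d) {u : ι → V} (hu0 : ∀ i, inner ℂ (x i) (u i) = 0)
    (hdef : IsDef x u) (a b : V) : inner ℂ (op x u a) b = -inner ℂ a (op x u b) := by
  have h1 : op x u + LinearMap.adjoint (op x u) = 0 := by
    apply h.op_zero hd hcard hV
    intro k
    rw [LinearMap.add_apply, inner_add_right, LinearMap.adjoint_inner_right]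
    have e1 : inner ℂ (op x u (x k)) (x k) = (starRingEnd ℂ) (inner ℂ (x k) (op x u (x k))) :=
      (inner_conj_symm _ _).symm
    rw [e1, Complex.add_conj]
    have e2 : (inner ℂ (x k) (op x u (x k)) : ℂ).re = 0 := by
      rw [inner_op, Complex.re_sum]
      have e3 : ∀ j, (inner ℂ (x j) (x k) * inner ℂ (x k) (u j)).re =
          -(inner ℂ (x k) (x j) * inner ℂ (x j) (u k)).re := by
        intro j
        have e4 := hdef k j
        rw [mul_add, Complex.add_re] at e4
        have e5 : (inner ℂ (x j) (x k) * inner ℂ (x k) (u j)).re =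
            (gm x k j * inner ℂ (u j) (x k)).re := by
          rw [← Complex.conj_re, map_mul, inner_conj_symm, inner_conj_symm]
          rfl
        rw [e5]
        unfold gm at e4 ⊢
        linarith
      simp_rw [e3]
      rw [Finset.sum_neg_distrib, ← Complex.re_sum, frame_inner h hd hcard hV, hu0]
      simp
    rw [e2]
    simp
  have h2 : LinearMap.adjoint (op x u) = -op x u := by
    rw [← sub_eq_zero, sub_neg_eq_add, add_comm]
    exact h1
  rw [← LinearMap.adjoint_inner_right, h2, LinearMap.neg_apply, inner_neg_right]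

/-- the projected field of an operator of this form -/
theorem op_field (h : IsEtf d x) (hd : 1 ≤ d) (hcard : Fintype.card ι = d ^ 2)
    (hV : Module.finrank ℂ V = d) {u : ι → V} (hu0 : ∀ i, inner ℂ (x i) (u i) = 0) (v : V) :
    ∑ j, inner ℂ (x j) v • (op x u (x j) - inner ℂ (x j) (op x u (x j)) • x j) =
      ((d : ℂ) ^ 2 / (d + 1)) • op x u v := by
  have hd1 : (d : ℂ) + 1 ≠ 0 := by exact_mod_cast d.succ_ne_zero
  have e1 : ∑ j, inner ℂ (x j) v • op x u (x j) = (d : ℂ) • op x u v := by
    rw [← map_smul, ← frame h hd hcard hV v, map_sum]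
    refine Finset.sum_congr rfl fun j _ => ?_
    rw [map_smul]
  have e2 : ∑ j, inner ℂ (x j) v • (inner ℂ (x j) (op x u (x j)) • x j) =
      ((d : ℂ) / (d + 1)) • op x u v := by
    apply ext_inner_left ℂ
    intro b
    rw [inner_sum, inner_smul_right, inner_op]
    have e3 : ∀ j, inner ℂ b (inner ℂ (x j) v • (inner ℂ (x j) (op x u (x j)) • x j)) =
        ∑ k, (inner ℂ (x k) (x j) * inner ℂ b (x j)) * (inner ℂ (x j) (u k) * inner ℂ (x j) v) := by
      intro j
      rw [inner_smul_right, inner_smul_right, inner_op, Finset.sum_mul, Finset.mul_sum]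
      refine Finset.sum_congr rfl fun k _ => ?_
      ring
    simp_rw [e3]
    rw [Finset.sum_comm]
    simp_rw [design h hd hcard hV, hu0, zero_mul, zero_add]
    rw [← Finset.mul_sum]
  simp_rw [smul_sub]
  rw [Finset.sum_sub_distrib, e1, e2, ← sub_smul]
  congr 1
  field_simp
  ring

/-- **Decomposition.** -/
theorem decomp (h : IsEtf d x) (hd : 1 ≤ d) (hcard : Fintype.card ι = d ^ 2)
    (hV : Module.finrank ℂ V = d) (v : ι → V) :
    IsDef x v ↔ ∃ (A : V →ₗ[ℂ] V) (θ : ι → ℝ) (w : ι → V), w ∈ NN x ∧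
      (∀ a b, inner ℂ (A a) b = -inner ℂ a (A b)) ∧
      ∀ i, v i = A (x i) + ((θ i : ℂ) * Complex.I) • x i + w i := by
  have hd0 : (d : ℂ) ≠ 0 := by
    have : d ≠ 0 := by omega
    exact_mod_cast this
  have hd1 : (d : ℂ) + 1 ≠ 0 := by exact_mod_cast d.succ_ne_zero
  constructor
  · intro hv
    -- remove the phases
    have h1 : ∀ i, ∃ θ : ℝ, inner ℂ (x i) (v i) = (θ : ℂ) * Complex.I := by
      intro i
      have h2 := hv i i
      unfold gm at h2
      rw [h.inner_self, one_mul, ← inner_conj_symm (v i) (x i), add_comm, Complex.add_conj] at h2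
      rw [Complex.ofReal_re] at h2
      refine ⟨(inner ℂ (x i) (v i) : ℂ).im, ?_⟩
      apply Complex.ext
      · simp; linarith
      · simp
    choose θ hθ using h1
    set u : ι → V := v - (fun i => ((θ i : ℂ) * Complex.I) • x i) with hu
    have hu0 : ∀ i, inner ℂ (x i) (u i) = 0 := by
      intro i
      rw [hu, Pi.sub_apply, inner_sub_right, inner_smul_right, h.inner_self, hθ, mul_one, sub_self]
    have hud : IsDef x u := hv.sub (isDef_phase h θ)
    -- the operator
    set s : ℝ := ((d : ℝ) + 1) / d ^ 2 with hs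
    set A : V →ₗ[ℂ] V := (s : ℂ) • op x u with hA
    have hAs : ∀ a b, inner ℂ (A a) b = -inner ℂ a (A b) := by
      intro a b
      rw [hA, LinearMap.smul_apply, LinearMap.smul_apply, inner_smul_left, inner_smul_right,
        op_skew h hd hcard hV hu0 hud, Complex.conj_ofReal]
      ring
    have h2 : ∀ i, ∃ α : ℝ, inner ℂ (x i) (A (x i)) = (α : ℂ) * Complex.I := by
      intro i
      have h3 := hAs (x i) (x i)
      rw [← inner_conj_symm (A (x i)) (x i)] at h3
      refine ⟨(inner ℂ (x i) (A (x i)) : ℂ).im, ?_⟩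
      have h4 := congrArg Complex.re h3
      rw [Complex.conj_re, Complex.neg_re] at h4
      apply Complex.ext
      · simp; linarith
      · simp
    choose α hα using h2
    set w : ι → V := u - (fun i => A (x i)) + (fun i => ((α i : ℂ) * Complex.I) • x i) with hw
    have hw0 : ∀ i, inner ℂ (x i) (w i) = 0 := by
      intro i
      rw [hw, Pi.add_apply, Pi.sub_apply, inner_add_right, inner_sub_right, inner_smul_right,
        h.inner_self, hα, hu0, mul_one]
      ring
    have hwd : IsDef x w := (hud.sub (isDef_skew hAs)).add (isDef_phase h α)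
    have hwY : ∀ a, ∑ j, inner ℂ (x j) a • w j = 0 := by
      intro a
      have e1 : ∀ j, inner ℂ (x j) a • w j = inner ℂ (x j) a • u j -
          (s : ℂ) • (inner ℂ (x j) a •
            (op x u (x j) - inner ℂ (x j) (op x u (x j)) • x j)) := by
        intro j
        have e2 : w j = u j - (s : ℂ) • (op x u (x j) - inner ℂ (x j) (op x u (x j)) • x j) := by
          rw [hw, Pi.add_apply, Pi.sub_apply, ← hα j, hA, LinearMap.smul_apply, inner_smul_right,
            smul_sub, smul_smul]
          abel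
        rw [e2, smul_sub, smul_comm]
      simp_rw [e1]
      rw [Finset.sum_sub_distrib, ← Finset.smul_sum, op_field h hd hcard hV hu0, ← op_apply,
        smul_smul]
      have e3 : (s : ℂ) * ((d : ℂ) ^ 2 / (d + 1)) = 1 := by
        rw [hs]; push_cast; field_simp
      rw [e3, one_smul, sub_self]
    refine ⟨A, fun i => θ i - α i, w, mem_NN_of h hd hcard hV hw0 hwd hwY, hAs, fun i => ?_⟩
    rw [hw, Pi.add_apply, Pi.sub_apply, hu, Pi.sub_apply]
    push_cast
    rw [sub_mul, sub_smul]
    abel
  · rintro ⟨A, θ, w, hw, hA, hv⟩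
    have h1 : v = (fun i => A (x i)) + (fun i => ((θ i : ℂ) * Complex.I) • x i) + w := by
      funext i
      rw [hv i]
      rfl
    rw [h1]
    exact ((isDef_skew hA).add (isDef_phase h θ)).add (isDef_NN hw)

end Pool.Agent.Y387.MD
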