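import Mathlib
import Pool.Agent.Y387.MD.Dec

/-!
# The derivative of the squared moduli
-/

set_option autoImplicit false

open Finset

namespace Pool.Agent.Y387.MD

open Pool.Agent.Y387.SF

theorem hasDerivAt_quad (P Q R : ℂ) :
    HasDerivAt (fun t : ℝ => ‖P + (t : ℂ) * Q + (t : ℂ) ^ 2 * R‖ ^ 2)
      (2 * (P * (starRingEnd ℂ) Q).re) 0 := by
  have h1 : (fun t : ℝ => ‖P + (t : ℂ) * Q + (t : ℂ) ^ 2 * R‖ ^ 2) =
      fun t : ℝ => (P.re + t * Q.re + t ^ 2 * R.re) ^ 2 + (P.im + t * Q.im + t ^ 2 * R.im) ^ 2 := by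
    funext t
    rw [← Complex.normSq_eq_norm_sq, Complex.normSq_apply]
    have e1 : (P + (t : ℂ) * Q + (t : ℂ) ^ 2 * R).re = P.re + t * Q.re + t ^ 2 * R.re := by
      rw [← Complex.ofReal_pow, Complex.add_re, Complex.add_re, Complex.re_ofReal_mul,
        Complex.re_ofReal_mul]
    have e2 : (P + (t : ℂ) * Q + (t : ℂ) ^ 2 * R).im = P.im + t * Q.im + t ^ 2 * R.im := by
      rw [← Complex.ofReal_pow, Complex.add_im, Complex.add_im, Complex.im_ofReal_mul,
        Complex.im_ofReal_mul]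
    rw [e1, e2]
    ring
  rw [h1]
  have g : ∀ a b c : ℝ, HasDerivAt (fun t : ℝ => a + t * b + t ^ 2 * c) b 0 := by
    intro a b c
    have f1 : HasDerivAt (fun t : ℝ => t * b) (1 * b) 0 := (hasDerivAt_id 0).mul_const b
    have f2 : HasDerivAt (fun t : ℝ => t ^ 2 * c) ((2 : ℕ) * (0 : ℝ) ^ (2 - 1) * c) 0 :=
      (hasDerivAt_pow 2 (0 : ℝ)).mul_const c
    have f3 := (f1.const_add a).add f2
    have f4 : (1 : ℝ) * b + (2 : ℕ) * (0 : ℝ) ^ (2 - 1) * c = b := by
      norm_num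
    rw [f4] at f3
    refine f3.congr_of_eventuallyEq (Filter.Eventually.of_forall fun t => ?_)
    simp only [Pi.add_apply]
  have g1 := (g P.re Q.re R.re).pow 2
  have g2 := (g P.im Q.im R.im).pow 2
  have g3 := g1.add g2
  have g4 : (2 : ℕ) * (P.re + 0 * Q.re + 0 ^ 2 * R.re) ^ (2 - 1) * Q.re +
      (2 : ℕ) * (P.im + 0 * Q.im + 0 ^ 2 * R.im) ^ (2 - 1) * Q.im =
      2 * (P * (starRingEnd ℂ) Q).re := by
    rw [Complex.mul_re, Complex.conj_re, Complex.conj_im]
    norm_num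
    ring
  rw [g4] at g3
  refine g3.congr_of_eventuallyEq (Filter.Eventually.of_forall fun t => ?_)
  simp only [Pi.add_apply, Pi.pow_apply]

variable {V : Type*} [NormedAddCommGroup V] [InnerProductSpace ℂ V]
variable {ι : Type*} {x : ι → V}

theorem hasDerivAt_inner (a b c e : V) :
    HasDerivAt (fun t : ℝ => ‖inner ℂ (a + (t : ℂ) • b) (c + (t : ℂ) • e)‖ ^ 2)
      (2 * (inner ℂ a c * (inner ℂ e a + inner ℂ c b)).re) 0 := by
  have h1 : (fun t : ℝ => ‖inner ℂ (a + (t : ℂ) • b) (c + (t : ℂ) • e)‖ ^ 2) =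
      fun t : ℝ => ‖inner ℂ a c + (t : ℂ) * (inner ℂ a e + inner ℂ b c) +
        (t : ℂ) ^ 2 * inner ℂ b e‖ ^ 2 := by
    funext t
    congr 2
    rw [inner_add_left, inner_add_right, inner_add_right, inner_smul_left, inner_smul_left,
      inner_smul_right, inner_smul_right, Complex.conj_ofReal]
    ring
  rw [h1]
  have h2 := hasDerivAt_quad (inner ℂ a c) (inner ℂ a e + inner ℂ b c) (inner ℂ b e)
  rw [map_add, inner_conj_symm, inner_conj_symm] at h2
  exact h2

/-- the infinitesimal condition in terms of derivatives -/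
theorem isDef_iff (v : ι → V) : IsDef x v ↔ ∀ i j,
    HasDerivAt (fun t : ℝ => ‖inner ℂ (x i + (t : ℂ) • v i) (x j + (t : ℂ) • v j)‖ ^ 2) 0 0 := by
  constructor
  · intro h i j
    have h1 := hasDerivAt_inner (x i) (v i) (x j) (v j)
    have h2 := h i j
    unfold gm at h2
    rw [h2, mul_zero] at h1
    exact h1
  · intro h i j
    have h1 := hasDerivAt_inner (x i) (v i) (x j) (v j)
    have h2 := h1.unique (h i j)
    unfold gm
    linarith

end Pool.Agent.Y387.MD
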